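import Pool.Agent.Lib.MP_f11a48_ag.CMK.MainT

/-!
# MP_f11a48_ag: fields `E` with the property `FlatOver F L E`
-/

set_option autoImplicit false

namespace Pool.Agent.Lib.MPf11a48.CMS

open Matrix MvPolynomial
open Pool.Agent.Lib.MPf11a48.CM hiding OmegaM
open Pool.Agent.Lib.MPf11a48.GL2T
open Pool.Agent.Lib.MPf11a48.U
open Pool.Agent.Lib.MPf11a48.CMK (OverG FlatFL)
open MainTM

/-- The property `FlatOver` in terms of functions on the set of embeddings of `E`. -/
theorem flatOver_of_flatFL {F L : IntermediateField ℚ ℂ} {E : Sub} (h : FlatFL F L E) :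
    FlatOver F L E := by
  intro V hV hfix hodd hleft hright
  let P : ((E →ₐ[ℚ] Qbar) → ℚ) →ₗ[ℚ] (GalQ → ℚ) := LinearMap.funLeft ℚ ℚ (j E)
  have hPa : ∀ f₀ γ, P f₀ γ = f₀ (j E γ) := fun f₀ γ => rfl
  have hlift : ∀ f ∈ V, ∃ f₀, P f₀ = f := by
    intro f hf
    refine ⟨fun φ => f (j_surjective E φ).choose, ?_⟩
    funext γ
    rw [hPa]
    have h1 := (j_surjective E (j E γ)).choose_spec
    have h2 := (j_eq_iff (E := E) γ _).1 h1.symm
    have h3 := hfix f hf γ _ h2
    rw [mul_inv_cancel_left] at h3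
    exact h3
  have hmem : ∀ f₀, f₀ ∈ V.comap P ↔ P f₀ ∈ V := fun f₀ => Iff.rfl
  obtain ⟨f₀, hf₀, hne, hval⟩ := h (V.comap P)
    (by
      obtain ⟨f, hf, hf0⟩ := Submodule.exists_mem_ne_zero_of_ne_bot hV
      obtain ⟨f₀, rfl⟩ := hlift f hf
      intro h0
      have h1 : f₀ ∈ V.comap P := hf
      rw [h0, Submodule.mem_bot] at h1
      exact hf0 (by rw [h1, map_zero]))
    (by
      intro f₀ hf₀ φ φ' hbar
      obtain ⟨γ, rfl⟩ := j_surjective E φ
      obtain ⟨γ', rfl⟩ := j_surjective E φ'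
      rw [j_of_bar hbar]
      exact hodd (P f₀) hf₀ cc isConj_cc γ)
    (by
      intro γ hγ f₀ hf₀
      exact hleft γ hγ (P f₀) hf₀)
    (by
      intro γ e hγ he f₀ hf₀
      have hst : Stab E γ := fun x hx => by
        have h1 := he ⟨x, hx⟩
        have h2 : ap γ x = ((e ⟨x, hx⟩ : E) : Qbar) := h1.symm
        rw [h2]
        exact (e ⟨x, hx⟩).2
      have h1 := hright γ hγ hst (P f₀) hf₀
      rw [hmem]
      convert h1 using 1
      funext δ
      rw [hPa, hPa]
      congr 1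
      refine AlgHom.ext fun x => ?_
      change j E δ (e x) = j E (δ * (show GalQ from γ)) x
      rw [j_apply, j_apply, ap_mul]
      congr 1
      exact he x)
  refine ⟨P f₀, hf₀, fun h0 => hne ?_, fun γ => hval _⟩
  funext φ
  obtain ⟨γ, rfl⟩ := j_surjective E φ
  exact congrFun h0 γ

/-- `FlatOver F L E` holds if `E` is an abelian extension of `ℚ` with `Full F E`. -/
theorem flatOver_of_abelian {F L : IntermediateField ℚ ℂ} {E : Sub} (hE : FiniteDimensional ℚ E)
    (Γ : Type) [CommGroup Γ] (hΓ : HasGal E Γ) (hF : Full F E) : FlatOver F L E :=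
  flatOver_of_flatFL (MainTM.goodFL (L := L)
    ⟨hE, Or.inr ⟨hF, Γ, inferInstance, hΓ, Or.inl mul_comm⟩⟩).2

/-- `FlatOver F L E` holds if `E` is a Galois extension of `ℚ`, with `Full F E` and `Full L E`, whose
Galois group is an M-group or a hyperoctahedral group. -/
theorem flatOver_of_galois {F L : IntermediateField ℚ ℂ} {E : Sub} (hE : FiniteDimensional ℚ E)
    (Γ : Type) [Group Γ] (hΓ : HasGal E Γ) (hF : Full F E) (hL : Full L E)
    (h : MGroup Γ ∨ ∃ n, Nonempty (Γ ≃* Hyp n)) : FlatOver F L E :=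
  flatOver_of_flatFL (MainTM.goodFL (L := L)
    ⟨hE, Or.inr ⟨hF, Γ, inferInstance, hΓ, Or.inr ⟨hL, h⟩⟩⟩).2

end Pool.Agent.Lib.MPf11a48.CMS
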